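import Mathlib

set_option autoImplicit false

namespace Pool.Agent.Results.MP_522cd8_co.PropertyF

open Finset

section Defs
variable {R : Type} [Ring R] (N : Subgroup Rˣ) {v : ℕ}

/-- generalised Butson Hadamard matrix of order `v` with entries in `N` -/
def IsGBH (M : Matrix (Fin v) (Fin v) Rˣ) : Prop :=
  2 ≤ v ∧ ¬ ringChar R ∣ v ∧ (∀ i j, M i j ∈ N) ∧
    (Matrix.of fun i j => (M i j : R)) * (Matrix.of fun i j => (((M j i)⁻¹ : Rˣ) : R)) =
      (v : R) • (1 : Matrix (Fin v) (Fin v) R) ∧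
    (Matrix.of fun i j => (((M j i)⁻¹ : Rˣ) : R)) * (Matrix.of fun i j => (M i j : R)) =
      (v : R) • (1 : Matrix (Fin v) (Fin v) R)

/-- first row and first column consist of ones -/
def Normalised (M : Matrix (Fin v) (Fin v) Rˣ) : Prop :=
  ∀ i j, i.val = 0 ∨ j.val = 0 → M i j = 1

/-- the first `m` and last `m` rows and columns have all entries `1` or `-1` -/
def Border (m : ℕ) (M : Matrix (Fin v) (Fin v) Rˣ) : Prop :=
  ∀ i j, (i.val < m ∨ v ≤ i.val + m) ∨ (j.val < m ∨ v ≤ j.val + m) → M i j = 1 ∨ M i j = -1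

/-- after permuting rows and columns, `K` is normalised with a border of width `m` -/
def HasBorder (m : ℕ) (K : Matrix (Fin v) (Fin v) Rˣ) : Prop :=
  ∃ σ τ : Equiv.Perm (Fin v), Normalised (K.submatrix σ τ) ∧ Border m (K.submatrix σ τ)

def IsJacket (K : Matrix (Fin v) (Fin v) Rˣ) : Prop :=
  IsGBH N K ∧ Normalised K ∧ HasBorder 1 K

/-- the jacket width of `K` is `w` -/
def HasWidth (K : Matrix (Fin v) (Fin v) Rˣ) (w : ℕ) : Prop :=
  IsGreatest {m | 1 ≤ m ∧ 2 * m ≤ v ∧ HasBorder m K} w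

/-- a jacket matrix that is not permutation equivalent to a Kronecker product of two -/
def IsPrimary (K : Matrix (Fin v) (Fin v) Rˣ) : Prop :=
  IsJacket N K ∧ ¬ ∃ (v₁ v₂ : ℕ) (K₁ : Matrix (Fin v₁) (Fin v₁) Rˣ)
    (K₂ : Matrix (Fin v₂) (Fin v₂) Rˣ) (e f : Fin v ≃ Fin v₁ × Fin v₂),
      IsJacket N K₁ ∧ IsJacket N K₂ ∧
        ∀ i j, K i j = K₁ (e i).1 (f j).1 * K₂ (e i).2 (f j).2

end Defs

def Admissible (n w : ℕ) : Prop := 1 ≤ w ∧ if Even n then w ≤ n else w ≤ n - 1

/-- property (F) -/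
def PropF (R : Type) [Ring R] (N : Subgroup Rˣ) : Prop :=
  {n : ℕ | 1 ≤ n ∧ ∀ w, Admissible n w →
    ∃ K : Matrix (Fin (2 * n)) (Fin (2 * n)) Rˣ, IsPrimary N K ∧ HasWidth K w}.Infinite

/-! ### the construction over the field with five elements -/

def two : (ZMod 5)ˣ := ⟨2, 3, by decide, by decide⟩

variable {v : ℕ}

def aa (w : ℕ) (i : Fin v) : (ZMod 5)ˣ := if i.val < w ∨ v ≤ i.val + w then 1 else two

def MM (w : ℕ) (i j : Fin v) : (ZMod 5)ˣ :=
  if j = i then aa w i else if j = i.rev then -aa w i else 1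

def ss (i : Fin v) : (ZMod 5)ˣ := if i.val + 1 = v then -1 else 1

def KK (w : ℕ) : Matrix (Fin v) (Fin v) (ZMod 5)ˣ := fun i j => ss i * ss j * MM w i j

theorem aa_rev (w : ℕ) (i : Fin v) : aa w i.rev = aa w i := by
  have := i.2
  unfold aa
  rw [Fin.val_rev]
  exact if_congr (by omega) rfl rfl

theorem rev_ne (hv : Even v) (i : Fin v) : i.rev ≠ i := by
  intro h
  have := congrArg Fin.val h
  rw [Fin.val_rev] at this
  obtain ⟨k, hk⟩ := hv
  have := i.2
  omega

theorem MM_symm (w : ℕ) (i j : Fin v) : MM w i j = MM w j i := by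
  unfold MM
  by_cases h : j = i
  · subst h; rfl
  · rw [if_neg h, if_neg (Ne.symm h)]
    by_cases h' : j = i.rev
    · subst h'; simp [aa_rev]
    · rw [if_neg h', if_neg]
      intro e; apply h'; rw [e, Fin.rev_rev]

theorem KK_symm (w : ℕ) (i j : Fin v) : KK w i j = KK w j i := by
  unfold KK; rw [MM_symm, mul_comm (ss i)]

theorem sum_corr (f : Fin v → ZMod 5) (S : Finset (Fin v)) (h : ∀ k, k ∉ S → f k = 1) :
    ∑ k, f k = v + ∑ k ∈ S, (f k - 1) := by
  rw [sum_subset (subset_univ S) (fun k _ hk => by simp [h k hk]), sum_sub_distrib]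
  simp

theorem MM_orth (hv : Even v) (h5 : (v : ZMod 5) = 4) (w : ℕ) (i j : Fin v) (hij : i ≠ j) :
    ∑ k, (MM w i k : ZMod 5) * (((MM w j k)⁻¹ : (ZMod 5)ˣ) : ZMod 5) = 0 := by
  have ri := rev_ne hv i
  have rj := rev_ne hv j
  by_cases h : j = i.rev
  · subst h
    rw [sum_corr _ {i, i.rev} (by
      intro k hk
      simp only [mem_insert, mem_singleton, not_or] at hk
      simp [MM, hk.1, hk.2]), sum_pair ri.symm, h5]
    simp [MM, ri, ri.symm, aa_rev]
    decide
  · have h1 : i ≠ j.rev := fun e => h (by rw [e, Fin.rev_rev])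
    have h2 : i.rev ≠ j.rev := fun e => hij (Fin.rev_injective e)
    have h3 : i.rev ≠ j := fun e => h e.symm
    rw [sum_corr _ {i, i.rev, j, j.rev} (by
      intro k hk
      simp only [mem_insert, mem_singleton, not_or] at hk
      simp [MM, hk.1, hk.2.1, hk.2.2.1, hk.2.2.2]), sum_insert (by simp [ri.symm, hij, h1]),
      sum_insert (by simp [h2, h3]), sum_pair rj.symm, h5]
    simp only [MM, ri, rj, hij, hij.symm, h, h1, h1.symm, h2, h2.symm, h3, if_true, if_false,
      inv_one, Units.val_one, mul_one, one_mul, Units.val_neg, inv_neg]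
    have : (4 : ZMod 5) = 1 + 1 + 1 + 1 := by decide
    rw [this]
    ring

theorem KK_orth (hv : Even v) (h5 : (v : ZMod 5) = 4) (w : ℕ) (i j : Fin v) :
    ∑ k, (KK w i k : ZMod 5) * (((KK w j k)⁻¹ : (ZMod 5)ˣ) : ZMod 5) =
      if i = j then (v : ZMod 5) else 0 := by
  split_ifs with h
  · subst h; simp
  · have := MM_orth hv h5 w i j h
    calc _ = ∑ k, ((ss i : ZMod 5) * (((ss j)⁻¹ : (ZMod 5)ˣ) : ZMod 5)) *
          ((MM w i k : ZMod 5) * (((MM w j k)⁻¹ : (ZMod 5)ˣ) : ZMod 5)) := by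
          refine sum_congr rfl fun k _ => ?_
          simp only [← Units.val_mul]
          congr 1
          unfold KK
          simp only [mul_inv]
          rw [show ss i * ss k * MM w i k * ((ss j)⁻¹ * (ss k)⁻¹ * (MM w j k)⁻¹) =
            (ss k * (ss k)⁻¹) * (ss i * (ss j)⁻¹ * (MM w i k * (MM w j k)⁻¹)) by ac_rfl]
          simp
      _ = 0 := by rw [← mul_sum, this, mul_zero]

theorem gbh (h2 : 2 ≤ v) (hv : Even v) (h5 : (v : ZMod 5) = 4) (w : ℕ) :
    IsGBH ⊤ (KK w : Matrix (Fin v) (Fin v) (ZMod 5)ˣ) := by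
  refine ⟨h2, ?_, fun _ _ => trivial, ?_, ?_⟩
  · rw [← ringChar.spec, h5]; decide
  · ext i j
    simp only [Matrix.mul_apply, Matrix.of_apply, KK_orth hv h5]
    simp [Matrix.one_apply]
  · ext i j
    simp only [Matrix.mul_apply, Matrix.of_apply]
    have := KK_orth hv h5 w j i
    simp only [KK_symm w j, KK_symm w i] at this
    simp only [mul_comm] at this ⊢
    rw [this]
    simp [Matrix.one_apply, eq_comm]

theorem norm (h2 : 2 ≤ v) {w : ℕ} (hw : 1 ≤ w) :
    Normalised (KK w : Matrix (Fin v) (Fin v) (ZMod 5)ˣ) := by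
  have key : ∀ i j : Fin v, i.val = 0 → KK w i j = 1 := by
    intro i j hi
    have ha : aa w i = 1 := by simp [aa]; omega
    have hs : ss i = 1 := by simp [ss]; omega
    unfold KK MM
    rw [ha, hs]
    by_cases h : j = i
    · subst h; simp [hs]
    · rw [if_neg h]
      by_cases h' : j = i.rev
      · have : ss j = -1 := by
          unfold ss; rw [if_pos]; rw [h', Fin.val_rev]; omega
        rw [if_pos h', this]; simp
      · have : ss j = 1 := by
          unfold ss; rw [if_neg]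
          intro e; apply h'; apply Fin.ext; rw [Fin.val_rev]; omega
        rw [if_neg h', this]; simp
  rintro i j (h | h)
  · exact key i j h
  · rw [KK_symm]; exact key j i h

theorem border {m w : ℕ} (hm : m ≤ w) : Border m (KK w : Matrix (Fin v) (Fin v) (ZMod 5)ˣ) := by
  have key : ∀ i j : Fin v, (i.val < m ∨ v ≤ i.val + m) → KK w i j = 1 ∨ KK w i j = -1 := by
    intro i j hi
    have ha : aa w i = 1 := by unfold aa; rw [if_pos (by omega)]
    unfold KK MM ss
    rw [ha]
    split_ifs <;> simp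
  rintro i j (h | h)
  · exact key i j h
  · rw [KK_symm]; exact key j i h

theorem card_border {m : ℕ} (hm : 2 * m ≤ v) :
    (univ.filter fun i : Fin v => i.val < m ∨ v ≤ i.val + m).card = 2 * m := by
  rw [← card_map Fin.valEmbedding]
  have : (univ.filter fun i : Fin v => i.val < m ∨ v ≤ i.val + m).map Fin.valEmbedding =
      range m ∪ Ico (v - m) v := by
    ext x
    simp only [mem_map, mem_filter, mem_univ, true_and, Fin.valEmbedding_apply, mem_union,
      mem_range, mem_Ico]
    constructor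
    · rintro ⟨i, hi, rfl⟩; have := i.2; omega
    · intro h; exact ⟨⟨x, by omega⟩, by simp only; omega, rfl⟩
  rw [this, card_union_of_disjoint]
  · simp; omega
  · rw [disjoint_left]; intro x h1 h2; simp at h1 h2; omega

theorem width (h2 : 2 ≤ v) {w : ℕ} (hw : 1 ≤ w) (hw' : 2 * w ≤ v) :
    HasWidth (KK w : Matrix (Fin v) (Fin v) (ZMod 5)ˣ) w := by
  refine ⟨⟨hw, hw', 1, 1, norm h2 hw, border le_rfl⟩, ?_⟩
  rintro m ⟨-, hm, σ, τ, -, hb⟩
  have := card_le_card_of_injOn (s := univ.filter fun i : Fin v => i.val < m ∨ v ≤ i.val + m)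
    (t := univ.filter fun i : Fin v => i.val < w ∨ v ≤ i.val + w) σ (by
      intro i hi
      have hi' := (mem_filter.1 hi).2
      have h := hb i (τ.symm (σ i)) (Or.inl hi')
      simp only [Matrix.submatrix_apply, Equiv.apply_symm_apply] at h
      simp only [coe_filter, mem_univ, true_and, Set.mem_setOf_eq]
      by_contra hc
      have ha : aa w (σ i) = two := by unfold aa; rw [if_neg hc]
      have hs : ss (σ i) = 1 := by unfold ss; rw [if_neg (by omega)]
      simp only [KK, MM, if_true, ha, hs, one_mul] at h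
      revert h; decide) σ.injective.injOn
  rw [card_border hm, card_border hw'] at this
  omega

theorem no_split (h2 : 2 ≤ v) {w : ℕ} (hw : 1 ≤ w) {A B : Type} [Fintype B] (hB : 4 ≤ Fintype.card B)
    (f : Fin v ≃ A × B) (i : Fin v) (hi : i.val ≠ 0) (g : A → (ZMod 5)ˣ)
    (h : ∀ j, KK w i j = g (f j).1) : False := by
  classical
  have key : ∀ (j0 : Fin v) (p q r : Fin v), (∀ j, KK w i j = KK w i j0 → j = p ∨ j = q ∨ j = r) →
      False := by
    intro j0 p q r hh
    have h1 := card_le_card_of_injOn (s := (univ : Finset B)) (t := {p, q, r})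
      (fun b => f.symm ((f j0).1, b)) (by
        intro b _
        have := hh (f.symm ((f j0).1, b)) (by rw [h, h]; simp)
        simpa using this) (by
        intro b _ c _ e
        simpa using e)
    have h3 : ({p, q, r} : Finset (Fin v)).card ≤ 3 := card_le_three
    rw [card_univ] at h1
    omega
  let z : Fin v := ⟨0, by omega⟩
  by_cases hl : i.val + 1 = v
  · refine key z z i i fun j hj => ?_
    rw [norm h2 hw i z (Or.inr rfl)] at hj
    by_contra hc
    push Not at hc
    have h1 : j ≠ i.rev := by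
      intro e; apply hc.1; apply Fin.ext; rw [e, Fin.val_rev]; simp [z]; omega
    have h3 : ss j = 1 := by
      unfold ss; rw [if_neg]; intro e; apply hc.2.1; apply Fin.ext; omega
    have h4 : ss i = -1 := by unfold ss; rw [if_pos hl]
    simp only [KK, MM, hc.2.1, h1, if_false, h3, h4] at hj
    revert hj; decide
  · have h4 : ss i = 1 := by unfold ss; rw [if_neg hl]
    have h5 : ss z.rev = -1 := by
      unfold ss; rw [if_pos]; rw [Fin.val_rev]; simp [z]; omega
    have h6 : z.rev ≠ i := by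
      intro e; apply hl; rw [← e, Fin.val_rev]; simp [z]; omega
    have h7 : z.rev ≠ i.rev := fun e => hi (by rw [← Fin.rev_injective e])
    refine key z.rev z.rev i i.rev fun j hj => ?_
    by_contra hc
    push Not at hc
    have h3 : ss j = 1 := by
      unfold ss; rw [if_neg]; intro e; apply hc.1; apply Fin.ext; rw [Fin.val_rev]; simp [z]; omega
    simp only [KK, MM, hc.2.1, hc.2.2, h6, h7, if_false, h3, h4, h5] at hj
    revert hj; decide

theorem primary (h10 : 10 ≤ v) (hv : Even v) (h5 : (v : ZMod 5) = 4) {w : ℕ} (hw : 1 ≤ w) :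
    IsPrimary ⊤ (KK w : Matrix (Fin v) (Fin v) (ZMod 5)ˣ) := by
  have h2 : 2 ≤ v := by omega
  refine ⟨⟨gbh h2 hv h5 w, norm h2 hw, 1, 1, norm h2 hw, border hw⟩, ?_⟩
  rintro ⟨v₁, v₂, K₁, K₂, e, f, ⟨⟨a1, -⟩, n1, -⟩, ⟨⟨a2, -⟩, n2, -⟩, h⟩
  have hc : v = v₁ * v₂ := by simpa using Fintype.card_congr e
  have pick : ∀ x y : Fin v₁ × Fin v₂, x ≠ y → (e.symm x).val ≠ 0 ∨ (e.symm y).val ≠ 0 := by
    intro x y hxy
    by_contra hh
    push Not at hh
    exact hxy (e.symm.injective (Fin.ext (hh.1.trans hh.2.symm)))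
  by_cases h4 : 4 ≤ v₂
  · have key : ∀ x : Fin v₁, (e.symm (x, ⟨0, by omega⟩)).val ≠ 0 → False := by
      intro x hx
      refine no_split h2 hw (by simpa using h4) f _ hx (fun a => K₁ x a) fun j => ?_
      rw [h, Equiv.apply_symm_apply, n2 _ _ (Or.inl rfl), mul_one]
    rcases pick (⟨0, by omega⟩, ⟨0, by omega⟩) (⟨1, by omega⟩, ⟨0, by omega⟩) (by simp) with
      h' | h' <;> exact key _ h'
  · have h4' : 4 ≤ v₁ := by nlinarith
    have key : ∀ x : Fin v₂, (e.symm (⟨0, by omega⟩, x)).val ≠ 0 → False := by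
      intro x hx
      refine no_split h2 hw (by simpa using h4') (f.trans (Equiv.prodComm _ _)) _ hx
        (fun a => K₂ x a) fun j => ?_
      rw [h, Equiv.apply_symm_apply, n1 _ _ (Or.inl rfl), one_mul]
      rfl
    rcases pick (⟨0, by omega⟩, ⟨0, by omega⟩) (⟨0, by omega⟩, ⟨1, by omega⟩) (by simp) with
      h' | h' <;> exact key _ h'

theorem result : ∃ (R : Type) (_ : Ring R) (N : Subgroup Rˣ), Nontrivial R ∧ PropF R N := by
  refine ⟨ZMod 5, inferInstance, ⊤, ⟨0, 1, by decide⟩, ?_⟩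
  refine Set.infinite_of_injective_forall_mem (f := fun k : ℕ => 5 * k + 7)
    (fun a b h => by simpa using h) fun k => ⟨by omega, fun w hw => ?_⟩
  have hw' : w ≤ 5 * k + 7 := by
    have := hw.2
    split_ifs at this <;> omega
  refine ⟨KK w, primary (by omega) (even_two_mul _) ?_ hw.1, width (by omega) hw.1 (by omega)⟩
  push_cast
  rw [show (5 : ZMod 5) = 0 from rfl]
  ring_nf
  rfl

end Pool.Agent.Results.MP_522cd8_co.PropertyF
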